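import Pool.Agent.Helper47.DS.Defs
import Pool.Agent.Helper53.BQ.Rk

/-!
# Row ESS of Theorem D*: essentially independent sets (helper53, for MP_5165fa_co)
-/

open Set BIC
open scoped Matroid

namespace BICS

universe u

section

variable {α : Type*} {M : Matroid α}

/-- rank in `M ／ (C \ Z)` for an independent set `C` -/
lemma ess_rk [M.Finite] {C : Set α} (hC : M.Indep C) {X Z : Set α} (hX : X ⊆ M.E \ C)
    (hZ : Z ⊆ C) : rk (M ／ (C \ Z)) X + C.ncard = rk M (X ∪ (C \ Z)) + Z.ncard := by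
  have hfin : C.Finite := M.ground_finite.subset hC.subset_ground
  have h1 := BQ.rk_con (M := M) (C := C \ Z) (X := X) (sdiff_subset.trans hC.subset_ground)
    (hX.trans (sdiff_subset_sdiff_right sdiff_subset))
  rw [rk_indep (hC.subset sdiff_subset)] at h1
  have h2 := Set.ncard_sdiff_add_ncard_of_subset hZ hfin
  omega

/-- deleting a set of coloops of `M | W` -/
lemma ess_coloops [M.Finite] {W : Set α} (G : Finset α)
    (h : ∀ c ∈ G, rk M (W \ {c}) + 1 ≤ rk M W) : rk M (W \ G) + G.card ≤ rk M W := by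
  classical
  induction G using Finset.induction_on with
  | empty => simp
  | insert c G hc ih =>
    have h1 := ih fun d hd => h d (Finset.mem_insert_of_mem hd)
    have h2 := h c (Finset.mem_insert_self c G)
    have h3 := rk_submod (M := M) (W \ (G : Set α)) (W \ {c})
    have h4 : (W \ (G : Set α)) ∪ (W \ {c}) = W := by
      ext x
      simp only [mem_union, mem_sdiff, Finset.mem_coe, mem_singleton_iff]
      constructor
      · rintro (⟨a, _⟩ | ⟨a, _⟩) <;> exact a
      · intro a
        by_cases hx : x = c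
        · exact Or.inl ⟨a, hx ▸ hc⟩
        · exact Or.inr ⟨a, hx⟩
    have h5 : (W \ (G : Set α)) ∩ (W \ {c}) = W \ ((insert c G : Finset α) : Set α) := by
      ext x
      simp only [mem_inter_iff, mem_sdiff, Finset.mem_coe, mem_singleton_iff, Finset.mem_insert]
      tauto
    rw [h4, h5] at h3
    rw [Finset.card_insert_of_notMem hc]
    omega

end

/-- **Row ESS.** -/
theorem essStmt : EssStmt.{u} := by
  classical
  intro α M _ C H hC hH k β hk I X hX
  have hCf : C.Finite := M.ground_finite.subset hC.subset_ground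
  have hHf : H.Finite := hCf.subset hH
  set XA : Finset (ℕ × ℕ) → Set α := fun A => ⋃ i ∈ I \ A, X i with hXA
  have hXAs : ∀ A, XA A ⊆ M.E \ C := by
    intro A
    refine iUnion₂_subset fun i hi => ?_
    exact hX i (Finset.mem_sdiff.1 hi).1
  -- essentially independent sets
  let Ess : Set α → Prop := fun B => B ⊆ H ∧ ∀ A ⊆ I, A.card ≤ β →
    rk M (XA A ∪ C) ≤ rk M (XA A ∪ (C \ B))
  have hE0 : Ess ∅ := ⟨empty_subset _, fun A _ _ => by simp⟩
  by_cases hbig : ∃ B, Ess B ∧ k ≤ B.ncard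
  · left
    obtain ⟨B, ⟨hBH, hB⟩, hkB⟩ := hbig
    obtain ⟨K, hKB, hKk⟩ := Set.exists_subset_card_eq hkB
    refine ⟨K, hKB.trans hBH, hKk, fun A hA hAc => ?_⟩
    have h1 := ess_rk hC (hXAs A) (hKB.trans (hBH.trans hH))
    have h2 := ess_rk hC (hXAs A) (Z := ∅) (empty_subset _)
    rw [sdiff_empty, ncard_empty] at h2
    have h3 := hB A hA hAc
    have h4 : rk M (XA A ∪ (C \ B)) ≤ rk M (XA A ∪ (C \ K)) :=
      rk_mono M (union_subset_union_right _ (sdiff_subset_sdiff_right hKB))
    change rk (M ／ C) (XA A) + k ≤ rk (M ／ (C \ K)) (XA A)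
    omega
  · right
    push Not at hbig
    -- a maximal essentially independent set
    obtain ⟨B, hB, hBmax⟩ : ∃ B, Ess B ∧ ∀ c ∈ H, c ∉ B → ¬ Ess (insert c B) := by
      by_contra hcon
      push Not at hcon
      have : ∀ n, ∃ B, Ess B ∧ n ≤ B.ncard := by
        intro n
        induction n with
        | zero => exact ⟨∅, hE0, Nat.zero_le _⟩
        | succ n ih =>
          obtain ⟨B, hB, hn⟩ := ih
          obtain ⟨c, hc, hcB, hE⟩ := hcon B hB
          refine ⟨_, hE, ?_⟩
          rw [Set.ncard_insert_of_notMem hcB (hHf.subset hB.1)]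
          omega
      obtain ⟨B, hB, hn⟩ := this k
      exact absurd hn (not_le.2 (hbig B hB))
    have hBk := hbig B hB
    obtain ⟨hBH, hBe⟩ := hB
    have hBf : B.Finite := hHf.subset hBH
    -- the exceptional tiles
    have hexc : ∀ c, ∃ A : Finset (ℕ × ℕ), (A ⊆ I ∧ A.card ≤ β) ∧
        (c ∈ H → c ∉ B → rk M (XA A ∪ (C \ insert c B)) + 1 ≤ rk M (XA A ∪ (C \ B))) := by
      intro c
      by_cases hc : c ∈ H ∧ c ∉ B
      · have h1 := hBmax c hc.1 hc.2
        have h2 : insert c B ⊆ H := insert_subset hc.1 hBH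
        simp only [Ess] at h1
        push Not at h1
        obtain ⟨A, hA, hAc, hlt⟩ := h1 h2
        refine ⟨A, ⟨hA, hAc⟩, fun _ _ => ?_⟩
        have := hBe A hA hAc
        omega
      · exact ⟨∅, ⟨Finset.empty_subset _, by simp⟩, fun a b => absurd ⟨a, b⟩ hc⟩
    choose Bc hBc1 hBc2 using hexc
    refine ⟨Bc, hBc1, fun i hi => ?_⟩
    set F : Set α := {c | c ∈ H ∧ i ∉ Bc c} with hF
    have hFC : F ⊆ C := fun c hc => hH hc.1
    have hFf : F.Finite := hCf.subset hFC
    have hGf : (F \ B).Finite := hFf.subset sdiff_subset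
    have e1 := ess_rk hC (hX i hi) hFC
    have e2 := ess_rk hC (hX i hi) (Z := ∅) (empty_subset _)
    rw [sdiff_empty, ncard_empty] at e2
    -- the elements of `F \ B` are coloops of `M | (X i ∪ (C \ B))`
    have h1 := ess_coloops (M := M) (W := X i ∪ (C \ B)) hGf.toFinset (by
      intro c hc
      rw [Set.Finite.mem_toFinset] at hc
      obtain ⟨⟨hcH, hci⟩, hcB⟩ := hc
      have h2 := hBc2 c hcH hcB
      have hsub : X i ⊆ XA (Bc c) := by
        intro x hx
        exact mem_iUnion₂.2 ⟨i, Finset.mem_sdiff.2 ⟨hi, hci⟩, hx⟩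
      have h3 := rk_submod (M := M) (X i ∪ (C \ B)) (XA (Bc c) ∪ (C \ insert c B))
      have h4 : rk M ((X i ∪ (C \ B)) \ {c}) ≤
          rk M ((X i ∪ (C \ B)) ∩ (XA (Bc c) ∪ (C \ insert c B))) := by
        apply rk_mono
        rintro x ⟨hx | hx, hxc⟩
        · exact ⟨Or.inl hx, Or.inl (hsub hx)⟩
        · refine ⟨Or.inr hx, Or.inr ⟨hx.1, ?_⟩⟩
          rintro (h | h)
          · exact hxc h
          · exact hx.2 h
      have h5 : rk M (XA (Bc c) ∪ (C \ B)) ≤
          rk M ((X i ∪ (C \ B)) ∪ (XA (Bc c) ∪ (C \ insert c B))) := by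
        apply rk_mono
        rintro x (hx | hx)
        · exact Or.inr (Or.inl hx)
        · exact Or.inl (Or.inr hx)
      omega)
    rw [← Set.ncard_eq_toFinset_card _ hGf, Set.Finite.coe_toFinset] at h1
    have h2 : rk M (X i ∪ (C \ F)) ≤ rk M ((X i ∪ (C \ B)) \ (F \ B)) + (B \ F).ncard := by
      refine (rk_mono M ?_).trans (rk_union_le M (hBf.subset sdiff_subset))
      rintro x (hx | ⟨hx, hxF⟩)
      · refine Or.inl ⟨Or.inl hx, fun h => (hX i hi hx).2 (hFC h.1)⟩
      · by_cases hxB : x ∈ B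
        · exact Or.inr ⟨hxB, hxF⟩
        · exact Or.inl ⟨Or.inr ⟨hx, hxB⟩, fun h => hxF h.1⟩
    have h3 : rk M (X i ∪ (C \ B)) ≤ rk M (X i ∪ C) :=
      rk_mono M (union_subset_union_right _ sdiff_subset)
    have h4 := Set.ncard_inter_add_ncard_sdiff_eq_ncard F B hFf
    have h5 := Set.ncard_inter_add_ncard_sdiff_eq_ncard B F hBf
    rw [inter_comm] at h5
    omega

end BICS
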